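import Mathlib

/-!
# Project NI (MP_0f6f3f_an, helper84), fibre representation FS, block Gns

PROOF. (`exists_gns`) Mathlib: `Mathlib/Analysis/InnerProductSpace/Reproducing.lean`. Let `K : Matrix X X (ℂ →L[ℂ] ℂ)`,
`K x y = k x y • ContinuousLinearMap.id` (check the order: `RKHS.kernel_inner` says `⟪kernel H x y v, w⟫ = ⟪kerFun H y v, kerFun H x w⟫`; if necessary
use the transposed kernel). It is positive semidefinite (`RKHS.posSemidef_tfae`, or the definition of `Matrix.PosSemidef` with `X →₀`), so
`Fact K.PosSemidef` and `L := RKHS.OfKernel K`, `e x := RKHS.kerFun L x 1`, `RKHS.kerFun_dense`, `RKHS.OfKernel.kernel_ofKernel`. (Alternatively construct the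
completion of `X →₀ ℂ` by hand as in `Pool/Agent/Helper84/NI/UP.lean`.)
-/

set_option autoImplicit false

open scoped ComplexConjugate ComplexOrder

namespace Pool.Agent.Helper90.Fib

/-- the operator valued kernel -/
private noncomputable def KK11 {X : Type} (k : Matrix X X ℂ) : Matrix X X (ℂ →L[ℂ] ℂ) :=
  Matrix.of fun x y => k x y • ContinuousLinearMap.id ℂ ℂ

private lemma KK11_apply {X : Type} (k : Matrix X X ℂ) (x y : X) (v : ℂ) :
    KK11 k x y v = k x y * v := by
  simp [KK11]

private lemma KK11_inner {X : Type} {k : Matrix X X ℂ} (hk : k.IsHermitian) (x y : X) (v w : ℂ) :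
    inner ℂ (KK11 k y x v) w = star v * k x y * w := by
  rw [KK11_apply]
  have h1 : k x y = conj (k y x) := by
    have := hk.apply x y
    simpa using this.symm
  rw [h1, RCLike.inner_apply]
  simp only [map_mul, RCLike.star_def]
  ring

private lemma KK11_posSemidef {X : Type} (k : Matrix X X ℂ) (hk : k.PosSemidef) :
    (KK11 k).PosSemidef := by
  have tf := (RKHS.posSemidef_tfae (𝕜 := ℂ) (X := X) (V := ℂ) (K := KK11 k)).out 2 0
  refine tf.1 ⟨?_, ?_⟩
  · ext x y
    refine ext_inner_right ℂ fun w => ?_
    rw [Matrix.conjTranspose_apply, ContinuousLinearMap.star_eq_adjoint,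
      ContinuousLinearMap.adjoint_inner_left, KK11_inner hk.1]
    rw [← inner_conj_symm, KK11_inner hk.1]
    have h1 : k y x = conj (k x y) := by
      have := hk.1.apply y x
      simpa using this.symm
    simp only [map_mul, RCLike.star_def, h1, Complex.conj_conj, map_one, mul_one, one_mul]
    try ring
  · intro vv
    have h1 := hk.2 vv
    have h2 : (vv.sum fun x w => vv.sum fun x' w' => inner ℂ (KK11 k x' x w) w') =
        vv.sum fun i xi => vv.sum fun j xj => star xi * k i j * xj := by
      refine Finsupp.sum_congr fun x _ => Finsupp.sum_congr fun y _ => ?_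
      exact KK11_inner hk.1 x y _ _
    rw [h2]
    exact (RCLike.le_iff_re_im.1 h1).1.trans' (by simp)

/-- A positive semidefinite kernel is the Gram matrix of a total family in a Hilbert space. -/
theorem exists_gns {X : Type} (k : Matrix X X ℂ) (hk : k.PosSemidef) :
    ∃ (L : Type) (_ : NormedAddCommGroup L) (_ : InnerProductSpace ℂ L) (_ : CompleteSpace L)
      (e : X → L), (∀ x y, inner ℂ (e x) (e y) = k x y) ∧
        (Submodule.span ℂ (Set.range e)).topologicalClosure = ⊤ := by
  have : Fact (KK11 k).PosSemidef := ⟨KK11_posSemidef k hk⟩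
  refine ⟨RKHS.OfKernel (KK11 k), inferInstance, inferInstance, inferInstance,
    fun x => RKHS.kerFun (RKHS.OfKernel (KK11 k)) x (1 : ℂ), ?_, ?_⟩
  · intro x y
    have h1 := RKHS.kernel_inner (RKHS.OfKernel (KK11 k)) y x (1 : ℂ) (1 : ℂ)
    rw [RKHS.OfKernel.kernel_ofKernel, KK11_inner hk.1] at h1
    rw [← h1]
    simp
  · rw [← RKHS.kerFun_dense (RKHS.OfKernel (KK11 k))]
    congr 1
    apply le_antisymm
    · refine Submodule.span_mono ?_
      rintro _ ⟨x, rfl⟩
      exact ⟨x, 1, rfl⟩
    · refine Submodule.span_le.2 ?_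
      rintro _ ⟨x, v, rfl⟩
      have h2 : RKHS.kerFun (RKHS.OfKernel (KK11 k)) x v = v • RKHS.kerFun (RKHS.OfKernel (KK11 k)) x (1 : ℂ) := by
        rw [← map_smul]; simp
      rw [h2]
      exact Submodule.smul_mem _ _ (Submodule.subset_span ⟨x, rfl⟩)

end Pool.Agent.Helper90.Fib
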