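import Pool.Agent.Helper84.NI.Geo

/-!
# Project NI (MP_0f6f3f_an, helper84), fibre representation FS, block Pauli

PROOF. `C⁻¹ = (det C)⁻¹ adj C`, `ns (c • A) = ‖c‖^2 ns A`, so `ns (C⁻¹ D) / (2 ‖det (C⁻¹ D)‖) = ns (adj C * D) / (2 ‖det C‖ ‖det D‖)`, and everything becomes a polynomial identity in
the real and imaginary parts of the entries: `ns (adj C * D) / 2 = (ns C / 2) (ns D / 2) - ∑ (xx' C i) (xx' D i)` with the numerators `xx'` (expand `adj C = !![C 1 1, -C 0 1; -C 1 0, C 0 0]`,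
`‖z‖^2 = re^2 + im^2`, `ring`). `x0_sq`: the case `C = D` of the identity (`ns 1 = 2`). `x0_pos`: `ns C > 0` if `det C ≠ 0`.
`ns_unitary`: the columns of `k` are unit vectors, `|det k| = 1`.
-/

set_option autoImplicit false

open Matrix
open scoped ComplexConjugate

namespace Pool.Agent.Helper90.Fib

open Pool.Agent.Helper84.NI

/-- first Pauli coordinate of `C Cᴴ / |det C|` -/
noncomputable def x0 (C : M2) : ℝ := ns C / (2 * ‖C.det‖)

/-- the other Pauli coordinates of `C Cᴴ / |det C|` -/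
noncomputable def xx (C : M2) : Fin 3 → ℝ :=
  ![(‖C 0 0‖ ^ 2 + ‖C 0 1‖ ^ 2 - ‖C 1 0‖ ^ 2 - ‖C 1 1‖ ^ 2) / (2 * ‖C.det‖),
    (C 0 0 * conj (C 1 0) + C 0 1 * conj (C 1 1)).re / ‖C.det‖,
    (C 0 0 * conj (C 1 0) + C 0 1 * conj (C 1 1)).im / ‖C.det‖]

/-- the numerators -/
private noncomputable def yy56 (C : M2) : Fin 3 → ℝ :=
  ![(‖C 0 0‖ ^ 2 + ‖C 0 1‖ ^ 2 - ‖C 1 0‖ ^ 2 - ‖C 1 1‖ ^ 2) / 2,
    (C 0 0 * conj (C 1 0) + C 0 1 * conj (C 1 1)).re,
    (C 0 0 * conj (C 1 0) + C 0 1 * conj (C 1 1)).im]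

private lemma sq_norm56 (z : ℂ) : ‖z‖ ^ 2 = z.re * z.re + z.im * z.im := by
  rw [Complex.sq_norm, Complex.normSq_apply]

private lemma key56 (C D : M2) : ns (C.adjugate * D) = 2 * ((ns C / 2) * (ns D / 2) - ∑ i, yy56 C i * yy56 D i) := by
  unfold ns yy56
  rw [Matrix.adjugate_fin_two]
  simp only [Fin.sum_univ_two, Fin.sum_univ_three, Matrix.mul_apply, Matrix.of_apply, Matrix.cons_val', Matrix.cons_val_zero,
    Matrix.cons_val_one, Matrix.cons_val_fin_one, Matrix.cons_val, sq_norm56, Complex.add_re, Complex.add_im,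
    Complex.mul_re, Complex.mul_im, Complex.neg_re, Complex.neg_im, Complex.conj_re, Complex.conj_im]
  ring

private lemma xx_eq56 (C : M2) (i : Fin 3) : xx C i = yy56 C i / ‖C.det‖ := by
  unfold xx yy56
  fin_cases i
  · simp only [Fin.zero_eta, Matrix.cons_val_zero]
    rw [div_div]
  · rfl
  · rfl

private lemma ns_smul56 (c : ℂ) (A : M2) : ns (c • A) = ‖c‖ ^ 2 * ns A := by
  unfold ns
  simp only [Matrix.smul_apply, smul_eq_mul, norm_mul, mul_pow, Finset.mul_sum]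

private lemma inv56 (C : M2) : C⁻¹ = (C.det)⁻¹ • C.adjugate := by
  rw [Matrix.inv_def, Ring.inverse_eq_inv']

theorem ker_id (C D : M2) (hC : C.det ≠ 0) (hD : D.det ≠ 0) :
    ns (C⁻¹ * D) / (2 * ‖(C⁻¹ * D).det‖) = x0 C * x0 D - ∑ i, xx C i * xx D i := by
  have hc : ‖C.det‖ ≠ 0 := norm_ne_zero_iff.2 hC
  have hd : ‖D.det‖ ≠ 0 := norm_ne_zero_iff.2 hD
  have e1 : ns (C⁻¹ * D) = (‖C.det‖ ^ 2)⁻¹ * (2 * ((ns C / 2) * (ns D / 2) - ∑ i, yy56 C i * yy56 D i)) := by
    rw [inv56, smul_mul_assoc, ns_smul56, key56, norm_inv, inv_pow]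
  have e2 : ‖(C⁻¹ * D).det‖ = ‖D.det‖ / ‖C.det‖ := by
    rw [Matrix.det_mul, Matrix.det_nonsing_inv, Ring.inverse_eq_inv', norm_mul, norm_inv]
    field_simp
  have e3 : ∑ i, xx C i * xx D i = (∑ i, yy56 C i * yy56 D i) / (‖C.det‖ * ‖D.det‖) := by
    rw [Finset.sum_div]
    refine Finset.sum_congr rfl fun i _ => ?_
    rw [xx_eq56, xx_eq56, div_mul_div_comm]
  rw [e1, e2, e3]
  unfold x0
  field_simp

theorem x0_sq (C : M2) (hC : C.det ≠ 0) : x0 C ^ 2 - ∑ i, xx C i ^ 2 = 1 := by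
  have h := ker_id C C hC hC
  have h1 : C⁻¹ * C = 1 := Matrix.nonsing_inv_mul C (Ne.isUnit hC)
  have h2 : ns (1 : M2) = 2 := by
    unfold ns
    simp [Fin.sum_univ_two, Matrix.one_apply]
    norm_num
  rw [h1, h2, Matrix.det_one, norm_one] at h
  simp only [pow_two]
  rw [← h]
  norm_num

theorem x0_pos (C : M2) (hC : C.det ≠ 0) : 0 < x0 C := by
  have h := x0_sq C hC
  have h1 : 0 ≤ x0 C := by
    unfold x0 ns
    positivity
  have h2 : 0 ≤ ∑ i, xx C i ^ 2 := Finset.sum_nonneg fun i _ => sq_nonneg _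
  rcases h1.eq_or_lt with h3 | h3
  · exfalso
    rw [← h3] at h
    nlinarith
  · exact h3

theorem ns_unitary (k : M2) (hk : IsU k) : ns k = 2 ∧ ‖k.det‖ = 1 := by
  unfold IsU at hk
  constructor
  · have e : ∀ j : Fin 2, ‖k 0 j‖ ^ 2 + ‖k 1 j‖ ^ 2 = 1 := by
      intro j
      have h := congrFun (congrFun hk j) j
      rw [Matrix.mul_apply, Fin.sum_univ_two, Matrix.conjTranspose_apply, Matrix.conjTranspose_apply, Matrix.one_apply_eq] at h
      have h1 : ∀ z : ℂ, star z * z = ((‖z‖ ^ 2 : ℝ) : ℂ) := by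
        intro z
        have h2 := Complex.conj_mul' z
        push_cast
        exact h2
      rw [h1, h1] at h
      exact_mod_cast h
    unfold ns
    rw [Fin.sum_univ_two, Fin.sum_univ_two, Fin.sum_univ_two]
    have h0 := e 0
    have h1 := e 1
    linarith
  · have h := congrArg Matrix.det hk
    rw [Matrix.det_mul, Matrix.det_conjTranspose, Matrix.det_one] at h
    have h1 := congrArg norm h
    rw [norm_mul, norm_star, norm_one] at h1
    have h2 : 0 ≤ ‖k.det‖ := norm_nonneg _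
    nlinarith

/-- the quantity `2 |det| / ns` in terms of the inner kernel: it is `(x0 y0 - ⟨x', y'⟩)⁻¹ > 0` -/
theorem ker_pos (C D : M2) (hC : C.det ≠ 0) (hD : D.det ≠ 0) :
    0 < x0 C * x0 D - ∑ i, xx C i * xx D i ∧
    2 * ‖(C⁻¹ * D).det‖ / ns (C⁻¹ * D) = (x0 C * x0 D - ∑ i, xx C i * xx D i)⁻¹ := by
  have hdet : (C⁻¹ * D).det ≠ 0 := by
    rw [Matrix.det_mul, Matrix.det_nonsing_inv, Ring.inverse_eq_inv']
    exact mul_ne_zero (inv_ne_zero hC) hD
  have h := ker_id C D hC hD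
  constructor
  · rw [← h]
    exact x0_pos _ hdet
  · rw [← h, inv_div]

/-- continuity of the kernel in one variable -/
theorem ker_cont (C : M2) (hC : C.det ≠ 0) :
    ContinuousOn (fun D : M2 => 2 * ‖(C⁻¹ * D).det‖ / ns (C⁻¹ * D)) {D : M2 | D.det ≠ 0} := by
  have hm : Continuous fun D : M2 => C⁻¹ * D := continuous_const.matrix_mul continuous_id
  have h1 : Continuous fun D : M2 => 2 * ‖(C⁻¹ * D).det‖ := continuous_const.mul hm.matrix_det.norm
  have h2 : Continuous fun D : M2 => ns (C⁻¹ * D) := by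
    unfold ns
    refine continuous_finsetSum _ fun i _ => continuous_finsetSum _ fun j _ => ?_
    exact ((hm.matrix_elem i j).norm).pow 2
  refine h1.continuousOn.div h2.continuousOn fun D hD => ?_
  have hdet : (C⁻¹ * D).det ≠ 0 := by
    rw [Matrix.det_mul, Matrix.det_nonsing_inv, Ring.inverse_eq_inv']
    exact mul_ne_zero (inv_ne_zero hC) hD
  have h3 := x0_pos _ hdet
  intro h4
  unfold x0 at h3
  rw [h4, zero_div] at h3
  exact lt_irrefl _ h3

end Pool.Agent.Helper90.Fib
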