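import Mathlib

/-!
# Project NI (MP_0f6f3f_an, helper84), fibre representation FS, block Psd

PROOF. `psd_lim`: the quadratic forms `∑ conj (c x) c y A x y` (finite sums) converge. `psd_diag`: replace `c` by `d c`. `psd_rpow`: `t x y = ∑ i, u x i * u y i`,
`|t x y| < 1` by Cauchy-Schwarz; `T = (t x y)` is positive semidefinite (`∑ i` of rank one forms: `∑_{x,y} conj (c x) c y t x y = ∑ i |∑ x, c x u x i|^2`), its entrywise powers
`t^n` also (`Matrix.PosSemidef.hadamard`, `Mathlib/Analysis/Matrix/Order.lean`, works for every index type; `n = 0`: all ones matrix).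
`(1 - t)^(-s) = ∑ c_n t^n`, `c_n = Ring.choose (s + n - 1) n ≥ 0` for `|t| < 1` (`Real.one_div_one_sub_rpow_hasFPowerSeriesOnBall_zero`), or
`(1 - t)^(-s) = exp (s ∑ t^j / j)` (`Real.hasSum_pow_div_log_of_abs_lt_one`, `Real.exp` series), and use `psd_lim` for the partial sums.
-/

set_option autoImplicit false

open Filter Topology
open scoped ComplexConjugate ComplexOrder

namespace Pool.Agent.Helper90.Fib

variable {X : Type}

/-- limits of positive semidefinite kernels -/
theorem psd_lim {A : ℕ → Matrix X X ℂ} {B : Matrix X X ℂ} (hA : ∀ n, (A n).PosSemidef)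
    (h : ∀ x y, Tendsto (fun n => A n x y) atTop (𝓝 (B x y))) : B.PosSemidef := by
  refine ⟨?_, ?_⟩
  · ext x y
    rw [Matrix.conjTranspose_apply]
    have h1 : Tendsto (fun n => star (A n y x)) atTop (𝓝 (star (B y x))) :=
      (continuous_star.tendsto _).comp (h y x)
    have h2 : (fun n => star (A n y x)) = fun n => A n x y :=
      funext fun n => (hA n).1.apply x y
    rw [h2] at h1
    exact tendsto_nhds_unique h1 (h x y)
  · intro v
    have h1 : Tendsto (fun n => v.sum fun i xi => v.sum fun j xj => star xi * A n i j * xj) atTop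
        (𝓝 (v.sum fun i xi => v.sum fun j xj => star xi * B i j * xj)) := by
      unfold Finsupp.sum
      refine tendsto_finsetSum _ fun i _ => tendsto_finsetSum _ fun j _ => ?_
      exact ((h i j).const_mul _).mul_const _
    have := Complex.orderClosedTopology
    exact ge_of_tendsto' h1 fun n => (hA n).2 v

private theorem psd_rank11 (v : X → ℝ) :
    (Matrix.of fun x y => ((v x * v y : ℝ) : ℂ)).PosSemidef := by
  refine ⟨?_, ?_⟩
  · ext x y
    rw [Matrix.conjTranspose_apply, Matrix.of_apply, Matrix.of_apply, mul_comm]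
    exact Complex.conj_ofReal _
  · intro f
    have h1 : (f.sum fun i xi => f.sum fun j xj => star xi *
        (Matrix.of fun x y => ((v x * v y : ℝ) : ℂ)) i j * xj) =
        star (f.sum fun i xi => (v i : ℂ) * xi) * (f.sum fun i xi => (v i : ℂ) * xi) := by
      unfold Finsupp.sum
      rw [star_sum, Finset.sum_mul_sum]
      refine Finset.sum_congr rfl fun i _ => Finset.sum_congr rfl fun j _ => ?_
      change star (f i) * ((v i * v j : ℝ) : ℂ) * f j = star ((v i : ℂ) * f i) * ((v j : ℂ) * f j)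
      rw [star_mul']
      have : star (v i : ℂ) = (v i : ℂ) := Complex.conj_ofReal _
      rw [this]
      push_cast
      ring
    rw [h1]
    exact star_mul_self_nonneg _

private theorem psd_mul11 {A B : Matrix X X ℂ} (hA : A.PosSemidef) (hB : B.PosSemidef) :
    (Matrix.of fun x y => A x y * B x y).PosSemidef := hA.hadamard hB

private theorem psd_smul11 {A : Matrix X X ℂ} (hA : A.PosSemidef) {c : ℝ} (hc : 0 ≤ c) :
    (Matrix.of fun x y => (c : ℂ) * A x y).PosSemidef := by
  have h1 := psd_rank11 (X := X) (fun _ => √c)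
  have h2 := psd_mul11 h1 hA
  refine (congrArg Matrix.PosSemidef ?_).mp h2
  ext x y
  rw [Matrix.of_apply, Matrix.of_apply, Matrix.of_apply, Real.mul_self_sqrt hc]

private theorem psd_add11 {A B : Matrix X X ℂ} (hA : A.PosSemidef) (hB : B.PosSemidef) :
    (Matrix.of fun x y => A x y + B x y).PosSemidef := hA.add hB

private theorem psd_pow11 {A : Matrix X X ℂ} (hA : A.PosSemidef) (n : ℕ) :
    (Matrix.of fun x y => A x y ^ n).PosSemidef := by
  induction n with
  | zero =>
    refine (congrArg Matrix.PosSemidef ?_).mp (psd_rank11 (X := X) (fun _ => 1))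
    ext x y
    simp
  | succ n ih =>
    refine (congrArg Matrix.PosSemidef ?_).mp (psd_mul11 ih hA)
    ext x y
    rw [Matrix.of_apply, Matrix.of_apply, Matrix.of_apply, pow_succ]

private theorem psd_sum11 {A : ℕ → Matrix X X ℂ} (hA : ∀ n, (A n).PosSemidef) (n : ℕ) :
    (Matrix.of fun x y => ∑ k ∈ Finset.range n, A k x y).PosSemidef := by
  induction n with
  | zero =>
    refine (congrArg Matrix.PosSemidef ?_).mp (psd_rank11 (X := X) (fun _ => 0))
    ext x y
    simp
  | succ n ih =>
    refine (congrArg Matrix.PosSemidef ?_).mp (psd_add11 ih (hA n))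
    ext x y
    rw [Matrix.of_apply, Matrix.of_apply, Matrix.of_apply, Finset.sum_range_succ]

private theorem psd_exp11 {A : Matrix X X ℂ} (hA : A.PosSemidef) :
    (Matrix.of fun x y => Complex.exp (A x y)).PosSemidef := by
  have h1 : ∀ n : ℕ, (Matrix.of fun x y => (((n.factorial : ℝ)⁻¹ : ℝ) : ℂ) * A x y ^ n).PosSemidef :=
    fun n => psd_smul11 (psd_pow11 hA n) (by positivity)
  refine psd_lim (fun n => psd_sum11 h1 n) fun x y => ?_
  have h2 : HasSum (fun n : ℕ => (((n.factorial : ℝ)⁻¹ : ℝ) : ℂ) * A x y ^ n) (Complex.exp (A x y)) := by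
    have h3 := NormedSpace.expSeries_div_hasSum_exp (𝔸 := ℂ) (A x y)
    rw [← Complex.exp_eq_exp_ℂ] at h3
    refine (congrArg (fun f => HasSum f (Complex.exp (A x y))) (funext fun n => ?_)).mp h3
    push_cast
    rw [div_eq_mul_inv, mul_comm]
  exact h2.tendsto_sum_nat

/-- `d x * A x y * d y` for real `d` -/
theorem psd_diag {A : Matrix X X ℂ} (hA : A.PosSemidef) (d : X → ℝ) :
    (Matrix.of fun x y => (d x : ℂ) * A x y * (d y : ℂ)).PosSemidef := by
  refine (congrArg Matrix.PosSemidef ?_).mp (psd_mul11 (psd_rank11 d) hA)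
  ext x y
  rw [Matrix.of_apply, Matrix.of_apply, Matrix.of_apply]
  push_cast
  ring

/-- the kernel `(1 - ⟨u x, u y⟩)^(-s)` for vectors in the open unit ball -/
theorem psd_rpow (u : X → Fin 3 → ℝ) (hu : ∀ x, ∑ i, u x i ^ 2 < 1) {s : ℝ} (hs : 0 < s) :
    (Matrix.of fun x y => (((1 - ∑ i, u x i * u y i) ^ (-s) : ℝ) : ℂ)).PosSemidef := by
  have ht : ∀ x y, |∑ i, u x i * u y i| < 1 := by
    intro x y
    have h1 : (∑ i, u x i * u y i) ^ 2 ≤ (∑ i, u x i ^ 2) * ∑ i, u y i ^ 2 :=
      Finset.sum_mul_sq_le_sq_mul_sq _ _ _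
    have h2 : 0 ≤ ∑ i, u x i ^ 2 := Finset.sum_nonneg fun i _ => sq_nonneg _
    have h3 : 0 ≤ ∑ i, u y i ^ 2 := Finset.sum_nonneg fun i _ => sq_nonneg _
    have h4 := hu x
    have h5 := hu y
    have h6 : (∑ i, u x i * u y i) ^ 2 < 1 := by nlinarith
    exact (sq_lt_one_iff_abs_lt_one _).1 h6
  have hT : (Matrix.of fun x y => ((∑ i, u x i * u y i : ℝ) : ℂ)).PosSemidef := by
    have h1 := psd_add11 (psd_add11 (psd_rank11 fun x => u x 0) (psd_rank11 fun x => u x 1))
      (psd_rank11 fun x => u x 2)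
    refine (congrArg Matrix.PosSemidef ?_).mp h1
    ext x y
    simp only [Matrix.of_apply, Fin.sum_univ_three]
    push_cast
    ring
  have hL : (Matrix.of fun x y => ((-Real.log (1 - ∑ i, u x i * u y i) : ℝ) : ℂ)).PosSemidef := by
    have h1 : ∀ n : ℕ, (Matrix.of fun x y => (((n + 1 : ℝ)⁻¹ : ℝ) : ℂ) *
        (Matrix.of fun x y => (Matrix.of fun x y => ((∑ i, u x i * u y i : ℝ) : ℂ)) x y ^ (n + 1)) x y).PosSemidef :=
      fun n => psd_smul11 (psd_pow11 hT (n + 1)) (by positivity)
    refine psd_lim (fun n => psd_sum11 h1 n) fun x y => ?_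
    have h2 := (Real.hasSum_pow_div_log_of_abs_lt_one (ht x y)).tendsto_sum_nat
    have h3 := (Complex.continuous_ofReal.tendsto _).comp h2
    refine h3.congr fun n => ?_
    simp only [Function.comp_apply, Matrix.of_apply]
    push_cast
    refine Finset.sum_congr rfl fun k _ => ?_
    rw [div_eq_mul_inv, mul_comm]
  have hE := psd_exp11 (psd_smul11 hL hs.le)
  refine (congrArg Matrix.PosSemidef ?_).mp hE
  ext x y
  have h1 := ht x y
  rw [abs_lt] at h1
  have h2 : 0 < 1 - ∑ i, u x i * u y i := by linarith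
  rw [Matrix.of_apply, Matrix.of_apply, Matrix.of_apply, Matrix.of_apply, Real.rpow_def_of_pos h2]
  push_cast
  congr 1
  ring

end Pool.Agent.Helper90.Fib
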