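import Mathlib

/-!
# Project NI (MP_0f6f3f_an, helper84), fibre representation FS, block Uni

PROOF. Let `p : (X →₀ ℂ) →ₗ[ℂ] L`, `p c = ∑ c x • e x` (`Finsupp.linearCombination`), same `p'` for `e'`; `‖p c‖ = ‖p' c‖` since the Gram matrices agree.
So `p c ↦ p' c` is a well defined linear isometry from the dense subspace `range p = span (range e)` onto the dense subspace `span (range e')`; extend it
(`LinearMap.extend`/`ContinuousLinearMap.extend`, or `LinearIsometry` on the closure), and the inverse in the same way. The range of the extension is closed and dense.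
-/

set_option autoImplicit false

namespace Pool.Agent.Helper90.Fib

variable {X L L' : Type} [NormedAddCommGroup L] [InnerProductSpace ℂ L] [CompleteSpace L]
  [NormedAddCommGroup L'] [InnerProductSpace ℂ L'] [CompleteSpace L']

/-- Total families with the same Gram matrix are unitarily equivalent. -/
theorem exists_unitary (e : X → L) (e' : X → L')
    (h : ∀ x y, inner ℂ (e x) (e y) = inner ℂ (e' x) (e' y))
    (ht : (Submodule.span ℂ (Set.range e)).topologicalClosure = ⊤)
    (ht' : (Submodule.span ℂ (Set.range e')).topologicalClosure = ⊤) :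
    ∃ U : L ≃ₗᵢ[ℂ] L', ∀ x, U (e x) = e' x := by
  have d1 : DenseRange (Finsupp.linearCombination ℂ e) := by
    have h1 := (Submodule.dense_iff_topologicalClosure_eq_top).2 ht
    rw [← Finsupp.range_linearCombination] at h1
    exact h1
  have d2 : DenseRange (Finsupp.linearCombination ℂ e') := by
    have h1 := (Submodule.dense_iff_topologicalClosure_eq_top).2 ht'
    rw [← Finsupp.range_linearCombination] at h1
    exact h1
  have hn : ∀ c : X →₀ ℂ, ‖Finsupp.linearCombination ℂ e' (LinearEquiv.refl ℂ (X →₀ ℂ) c)‖ =
      ‖Finsupp.linearCombination ℂ e c‖ := by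
    intro c
    have h1 : inner ℂ (Finsupp.linearCombination ℂ e' c) (Finsupp.linearCombination ℂ e' c) =
        inner ℂ (Finsupp.linearCombination ℂ e c) (Finsupp.linearCombination ℂ e c) := by
      simp only [Finsupp.linearCombination_apply, Finsupp.sum, sum_inner, inner_sum, inner_smul_left,
        inner_smul_right, h]
    rw [inner_self_eq_norm_sq_to_K, inner_self_eq_norm_sq_to_K] at h1
    have h2 : ‖Finsupp.linearCombination ℂ e' c‖ ^ 2 = ‖Finsupp.linearCombination ℂ e c‖ ^ 2 := by
      exact_mod_cast h1
    exact (sq_eq_sq₀ (norm_nonneg _) (norm_nonneg _)).1 h2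
  refine ⟨(LinearEquiv.refl ℂ (X →₀ ℂ)).extendOfIsometry (Finsupp.linearCombination ℂ e)
    (Finsupp.linearCombination ℂ e') d1 d2 hn, fun x => ?_⟩
  have h1 := LinearEquiv.extendOfIsometry_eq (LinearEquiv.refl ℂ (X →₀ ℂ))
    (Finsupp.linearCombination ℂ e) (Finsupp.linearCombination ℂ e') d1 d2 hn (Finsupp.single x 1)
  simpa using h1

/-- Unitaries (or just continuous linear maps) which agree on a total family are equal. -/
theorem eq_of_total (e : X → L) (ht : (Submodule.span ℂ (Set.range e)).topologicalClosure = ⊤)
    {S T : L →L[ℂ] L'} (h : ∀ x, S (e x) = T (e x)) (w : L) : S w = T w := by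
  have h1 := (Submodule.dense_iff_topologicalClosure_eq_top).2 ht
  have h2 : S = T := ContinuousLinearMap.ext_on h1 (by rintro _ ⟨x, rfl⟩; exact h x)
  rw [h2]

/-- Strong continuity may be checked on a total family. -/
theorem cont_of_total {Y : Type} [TopologicalSpace Y] {s : Set Y} (e : X → L)
    (ht : (Submodule.span ℂ (Set.range e)).topologicalClosure = ⊤) (U : Y → (L ≃ₗᵢ[ℂ] L'))
    (h : ∀ x, ContinuousOn (fun y => U y (e x)) s) (w : L) : ContinuousOn (fun y => U y w) s := by
  have h1 := (Submodule.dense_iff_topologicalClosure_eq_top).2 ht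
  have h2 : ∀ v ∈ Submodule.span ℂ (Set.range e), ContinuousOn (fun y => U y v) s := by
    intro v hv
    induction hv using Submodule.span_induction with
    | mem v hv =>
      obtain ⟨x, rfl⟩ := hv
      exact h x
    | zero => simpa using continuousOn_const
    | add v v' _ _ hv hv' =>
      simp only [map_add]
      exact hv.add hv'
    | smul c v _ hv =>
      simp only [map_smul]
      exact hv.const_smul c
  refine continuousOn_of_uniform_approx_of_continuousOn (fun u hu => ?_)
  obtain ⟨ε, hε, hεu⟩ := Metric.mem_uniformity_dist.1 hu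
  obtain ⟨v, hv, hvw⟩ := Metric.mem_closure_iff.1 (h1 w) ε hε
  refine ⟨fun y => U y v, h2 v hv, fun y _ => hεu ?_⟩
  rw [(U y).dist_map]
  exact hvw

end Pool.Agent.Helper90.Fib
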