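import Pool.Agent.Helper90.Fib.Rep

/-!
# Project NI (MP_0f6f3f_an, helper84), fibre representation FB, block Ball

PROOF. `B = {x | ‖x 0‖^2 + ‖x 1‖^2 ≤ 1}` is measurable, a neighbourhood of `0` (positive volume: `IsOpen.measure_pos`) and bounded (finite volume, inside `Metric.closedBall 0 1`).
`v = c • indicatorConstLp 2 _ _ 1` with `c = ‖indicator‖⁻¹ > 0`. Rotations and `TC k` for unitary `k` preserve `B`. `⟪v, sig C v⟫ = c^2 volume (B ∩ TC C ⁻¹' B) > 0` as `TC C` is continuous with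
`TC C 0 = 0`, so the intersection is a neighbourhood of `0`.
-/

set_option autoImplicit false

open Matrix MeasureTheory
open scoped ENNReal

namespace Pool.Agent.Helper90.Fib

open Pool.Agent.Helper84.NI

/-- the unit ball of `ℂ²` -/
def BB : Set E2 := {x | ‖x 0‖ ^ 2 + ‖x 1‖ ^ 2 ≤ 1}

theorem BB_closed : IsClosed BB := by
  refine isClosed_le ?_ continuous_const
  fun_prop

theorem BB_meas : MeasurableSet BB := BB_closed.measurableSet

theorem BB_fin : (volume : Measure E2) BB ≠ ∞ := by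
  have h : BB ⊆ Metric.closedBall 0 1 := by
    intro x hx
    have hx' : ‖x 0‖ ^ 2 + ‖x 1‖ ^ 2 ≤ 1 := hx
    rw [mem_closedBall_zero_iff, pi_norm_le_iff_of_nonneg zero_le_one]
    intro i
    fin_cases i
    · simp only [Fin.zero_eta]
      nlinarith [norm_nonneg (x 0), sq_nonneg ‖x 1‖]
    · simp only [Fin.mk_one]
      nlinarith [norm_nonneg (x 1), sq_nonneg ‖x 0‖]
  exact ((measure_mono h).trans_lt measure_closedBall_lt_top).ne

/-- the open ball is contained -/
theorem BB_nhds : BB ∈ nhds (0 : E2) := by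
  have h : {x : E2 | ‖x 0‖ ^ 2 + ‖x 1‖ ^ 2 < 1} ⊆ BB := fun x hx => le_of_lt (show ‖x 0‖ ^ 2 + ‖x 1‖ ^ 2 < 1 from hx)
  refine Filter.mem_of_superset (IsOpen.mem_nhds ?_ ?_) h
  · refine isOpen_lt ?_ continuous_const
    fun_prop
  · simp

/-- the indicator function -/
noncomputable def II : LL := indicatorConstLp 2 BB_meas BB_fin (1 : ℂ)

theorem II_comp {T : E2 → E2} (hT : MeasurePreserving T (volume : Measure E2) (volume : Measure E2))
    {g : LL} (hg : (g : E2 → ℂ) =ᵐ[volume] fun x => II (T x)) :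
    g = indicatorConstLp 2 (BB_meas.preimage hT.measurable)
      (by rw [hT.measure_preimage BB_meas.nullMeasurableSet]; exact BB_fin) (1 : ℂ) := by
  rw [← Lp.indicatorConstLp_compMeasurePreserving BB_meas BB_fin (1 : ℂ) hT]
  refine Lp.ext (hg.trans ?_)
  exact (Lp.coeFn_compMeasurePreserving _ hT).symm

theorem II_fix {T : E2 → E2} (hT : MeasurePreserving T (volume : Measure E2) (volume : Measure E2))
    (hB : T ⁻¹' BB = BB) {g : LL} (hg : (g : E2 → ℂ) =ᵐ[volume] fun x => II (T x)) : g = II := by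
  rw [II_comp hT hg]
  unfold II
  congr 1

theorem II_norm : 0 < ‖II‖ := by
  unfold II
  rw [norm_indicatorConstLp (by norm_num) (by norm_num)]
  have h : 0 < (volume : Measure E2).real BB := by
    rw [measureReal_def]
    refine ENNReal.toReal_pos (Measure.measure_pos_of_mem_nhds _ BB_nhds).ne' BB_fin
  simp only [norm_one, one_mul]
  positivity

theorem exists_ball : ∃ v : LL, ‖v‖ = 1 ∧ (∀ (z : ℂ) (hz : ‖z‖ = 1), rot z hz v = v) ∧
    (∀ k : M2, IsU k → sig k v = v) ∧ ∀ C : M2, C.det ≠ 0 → 0 < (inner ℂ v (sig C v)).re := by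
  refine ⟨((‖II‖⁻¹ : ℝ) : ℂ) • II, ?_, ?_, ?_, ?_⟩
  · rw [norm_smul, Complex.norm_real, norm_inv, norm_norm, inv_mul_cancel₀ II_norm.ne']
  · intro z hz
    rw [map_smul]
    congr 1
    refine II_fix (smul_mp z hz) ?_ (rot_ae z hz II)
    ext x
    simp [BB, hz]
  · intro k hk
    have hk0 : k.det ≠ 0 := by
      intro h
      have h1 := congrArg Matrix.det hk
      rw [Matrix.det_mul, h, mul_zero, Matrix.det_one] at h1
      exact zero_ne_one h1
    rw [map_smul]
    congr 1
    refine II_fix (TC_mp k hk0) ?_ (sig_ae k hk0 II)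
    ext x
    change ‖TC k x 0‖ ^ 2 + ‖TC k x 1‖ ^ 2 ≤ 1 ↔ ‖x 0‖ ^ 2 + ‖x 1‖ ^ 2 ≤ 1
    rw [TC_unitary k hk x]
  · intro C hC
    rw [map_smul, inner_smul_left, inner_smul_right, II_comp (TC_mp C hC) (sig_ae C hC II)]
    unfold II
    rw [L2.inner_indicatorConstLp_one_indicatorConstLp_one (𝕜 := ℂ) BB_meas
      (BB_meas.preimage (TC_mp C hC).measurable) BB_fin
      (by rw [(TC_mp C hC).measure_preimage BB_meas.nullMeasurableSet]; exact BB_fin)]
    have h0 : TC C 0 = 0 := by simp [TC]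
    have hn : BB ∩ TC C ⁻¹' BB ∈ nhds (0 : E2) := by
      refine Filter.inter_mem BB_nhds ((TC_cont C).continuousAt.preimage_mem_nhds ?_)
      rw [h0]
      exact BB_nhds
    have h : 0 < (volume : Measure E2).real (BB ∩ TC C ⁻¹' BB) := by
      rw [measureReal_def]
      refine ENNReal.toReal_pos (Measure.measure_pos_of_mem_nhds _ hn).ne' ?_
      exact ((measure_mono Set.inter_subset_left).trans_lt (lt_top_iff_ne_top.2 BB_fin)).ne
    have hI := II_norm
    unfold II at hI
    rw [Complex.conj_ofReal]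
    rw [← mul_assoc, ← Complex.ofReal_mul, Complex.re_ofReal_mul]
    refine mul_pos (mul_pos (inv_pos.2 hI) (inv_pos.2 hI)) ?_
    exact h

end Pool.Agent.Helper90.Fib
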