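import Pool.Agent.Helper90.Fib.Rep

/-!
# Project NI (MP_0f6f3f_an, helper84), fibre representation FB, block MulOp

PROOF. `mop m` = multiplication by the bounded measurable function `m` on `Lp ℂ 2` (`MemLp.bdd_mul` or `MemLp.of_le_mul`; `LinearMap.mkContinuous` with the bound of `|m|`).
`‖f‖^2 = ∫ ‖f x‖^2` (`MeasureTheory.L2`, `integral_inner`/`L2.inner_def`), `‖mop m f‖^2 = ∫ m^2 ‖f‖^2`. `mop_sq1`, `mop_sq2`: sum of the integrals, `{0}` has volume zero (`NoAtoms`).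
`mop_sig`: `(m f)(TC C x) = m (TC C x) f (TC C x)`, `m (TC C x) = m (C⁻¹ x)` by homogeneity. `mop_rot`: `m (z x) = m x`.
-/

set_option autoImplicit false

open Matrix MeasureTheory
open scoped ENNReal

namespace Pool.Agent.Helper90.Fib

open Pool.Agent.Helper84.NI

/-- Multiplication by one bounded function. -/
theorem exists_mop_one (m : E2 → ℝ) (hm : Measurable m) (b : ℝ) (hb : ∀ x, |m x| ≤ b) :
    ∃ T : LL →L[ℂ] LL, ∀ f : LL, (T f : E2 → ℂ) =ᵐ[volume] fun x => (m x : ℂ) * f x := by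
  have hmem : ∀ f : LL, MemLp (fun x => (m x : ℂ) * f x) 2 (volume : Measure E2) := by
    intro f
    refine MemLp.of_le_mul (c := b) (Lp.memLp f) ?_ ?_
    · exact (Complex.measurable_ofReal.comp hm).aestronglyMeasurable.mul (Lp.aestronglyMeasurable f)
    · refine Filter.Eventually.of_forall fun x => ?_
      rw [norm_mul, Complex.norm_real, Real.norm_eq_abs]
      exact mul_le_mul_of_nonneg_right (hb x) (norm_nonneg _)
  refine ⟨LinearMap.mkContinuous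
    { toFun := fun f => (hmem f).toLp _
      map_add' := ?_
      map_smul' := ?_ } b ?_, ?_⟩
  · intro f g
    apply Lp.ext
    filter_upwards [(hmem (f + g)).coeFn_toLp, (hmem f).coeFn_toLp, (hmem g).coeFn_toLp,
      Lp.coeFn_add f g, Lp.coeFn_add ((hmem f).toLp _) ((hmem g).toLp _)] with x h1 h2 h3 h4 h5
    rw [h1, h5, Pi.add_apply, h2, h3, h4, Pi.add_apply]
    ring
  · intro c f
    apply Lp.ext
    filter_upwards [(hmem (c • f)).coeFn_toLp, (hmem f).coeFn_toLp, Lp.coeFn_smul c f,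
      Lp.coeFn_smul c ((hmem f).toLp _)] with x h1 h2 h3 h4
    rw [h1, RingHom.id_apply, h4, Pi.smul_apply, h2, h3, Pi.smul_apply, smul_eq_mul, smul_eq_mul]
    ring
  · intro f
    apply Lp.norm_le_mul_norm_of_ae_le_mul
    filter_upwards [(hmem f).coeFn_toLp] with x h1
    show ‖((hmem f).toLp _ : E2 → ℂ) x‖ ≤ _
    rw [h1, norm_mul, Complex.norm_real, Real.norm_eq_abs]
    exact mul_le_mul_of_nonneg_right (hb x) (norm_nonneg _)
  · intro f
    exact (hmem f).coeFn_toLp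

/-- Multiplication operators. -/
theorem exists_mop : ∃ mop : (E2 → ℝ) → (LL →L[ℂ] LL), ∀ m : E2 → ℝ, Measurable m →
    (∃ b, ∀ x, |m x| ≤ b) → ∀ f : LL, (mop m f : E2 → ℂ) =ᵐ[volume] fun x => (m x : ℂ) * f x := by
  have h : ∀ m : E2 → ℝ, ∃ T : LL →L[ℂ] LL, Measurable m → (∃ b, ∀ x, |m x| ≤ b) →
      ∀ f : LL, (T f : E2 → ℂ) =ᵐ[volume] fun x => (m x : ℂ) * f x := by
    intro m
    by_cases hm : Measurable m ∧ ∃ b, ∀ x, |m x| ≤ b
    · obtain ⟨h1, b, h2⟩ := hm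
      obtain ⟨T, hT⟩ := exists_mop_one m h1 b h2
      exact ⟨T, fun _ _ => hT⟩
    · exact ⟨0, fun h1 h2 => absurd ⟨h1, h2⟩ hm⟩
  choose mop hmop using h
  exact ⟨mop, hmop⟩

/-- Multiplication operators. -/
noncomputable def mop : (E2 → ℝ) → (LL →L[ℂ] LL) := exists_mop.choose

theorem mop_ae {m : E2 → ℝ} (hm : Measurable m) (hb : ∃ b, ∀ x, |m x| ≤ b) (f : LL) :
    (mop m f : E2 → ℂ) =ᵐ[volume] fun x => (m x : ℂ) * f x := exists_mop.choose_spec m hm hb f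

/-- The norm of `L²(ℂ²)` as an integral. -/
theorem norm_sq_int (f : LL) : ‖f‖ ^ 2 = ∫ x, ‖f x‖ ^ 2 := by
  rw [@norm_sq_eq_re_inner ℂ _ _ _ _ f, L2.inner_def]
  simp_rw [inner_self_eq_norm_sq_to_K]
  rw [← RCLike.reCLM_apply, ← ContinuousLinearMap.integral_comp_comm]
  · refine integral_congr_ae (Filter.Eventually.of_forall fun x => ?_)
    simp only [RCLike.reCLM_apply]
    norm_cast
  · have := L2.integrable_inner (𝕜 := ℂ) f f
    simp_rw [inner_self_eq_norm_sq_to_K] at this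
    exact this

theorem sq_integrable (f : LL) : Integrable (fun x => ‖f x‖ ^ 2) (volume : Measure E2) :=
  (memLp_two_iff_integrable_sq_norm (Lp.aestronglyMeasurable f)).1 (Lp.memLp f)

theorem ae_ne_zero : ∀ᵐ x : E2, x ≠ 0 := by
  rw [ae_iff]
  simp

theorem mop_sq1 {ι : Type} (S : Finset ι) (m : ι → E2 → ℝ) (hm : ∀ t ∈ S, Measurable (m t))
    (hb : ∀ t ∈ S, ∃ b, ∀ x, |m t x| ≤ b) (h1 : ∀ x, x ≠ 0 → ∑ t ∈ S, m t x ^ 2 = 1) (f : LL) :
    ∑ t ∈ S, ‖mop (m t) f‖ ^ 2 = ‖f‖ ^ 2 := by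
  have e1 : ∀ t ∈ S, ‖mop (m t) f‖ ^ 2 = ∫ x, ‖mop (m t) f x‖ ^ 2 := fun t _ => norm_sq_int _
  rw [Finset.sum_congr rfl e1, ← integral_finsetSum S fun t _ => sq_integrable _, norm_sq_int]
  refine integral_congr_ae ?_
  have h2 : ∀ᵐ x : E2, ∀ t ∈ S, mop (m t) f x = (m t x : ℂ) * f x := by
    refine (Filter.eventually_all_finset S).2 ?_
    intro t ht
    exact mop_ae (hm t ht) (hb t ht) f
  filter_upwards [h2, ae_ne_zero] with x hx hx0
  have h3 : ∀ t ∈ S, ‖mop (m t) f x‖ ^ 2 = m t x ^ 2 * ‖f x‖ ^ 2 := by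
    intro t ht
    rw [hx t ht, norm_mul, Complex.norm_real, Real.norm_eq_abs, mul_pow, sq_abs]
  rw [Finset.sum_congr rfl h3, ← Finset.sum_mul, h1 x hx0, one_mul]

theorem mop_sq2 {ι : Type} (S : Finset ι) (m m' : ι → E2 → ℝ) (a : ℝ)
    (hm : ∀ t ∈ S, Measurable (m t)) (hb : ∀ t ∈ S, ∃ b, ∀ x, |m t x| ≤ b)
    (hm' : ∀ t ∈ S, Measurable (m' t)) (hb' : ∀ t ∈ S, ∃ b, ∀ x, |m' t x| ≤ b)
    (h1 : ∀ x, x ≠ 0 → ∑ t ∈ S, (m t x - m' t x) ^ 2 ≤ a) (f : LL) :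
    ∑ t ∈ S, ‖mop (m t) f - mop (m' t) f‖ ^ 2 ≤ a * ‖f‖ ^ 2 := by
  have e1 : ∀ t ∈ S, ‖mop (m t) f - mop (m' t) f‖ ^ 2 = ∫ x, ‖(mop (m t) f - mop (m' t) f : LL) x‖ ^ 2 :=
    fun t _ => norm_sq_int _
  rw [Finset.sum_congr rfl e1, ← integral_finsetSum S fun t _ => sq_integrable _, norm_sq_int,
    ← integral_const_mul]
  refine integral_mono_ae (integrable_finsetSum S fun t _ => sq_integrable _)
    ((sq_integrable f).const_mul a) ?_
  have h2 : ∀ᵐ x : E2, ∀ t ∈ S, mop (m t) f x = (m t x : ℂ) * f x := by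
    refine (Filter.eventually_all_finset S).2 ?_
    intro t ht
    exact mop_ae (hm t ht) (hb t ht) f
  have h2' : ∀ᵐ x : E2, ∀ t ∈ S, mop (m' t) f x = (m' t x : ℂ) * f x := by
    refine (Filter.eventually_all_finset S).2 ?_
    intro t ht
    exact mop_ae (hm' t ht) (hb' t ht) f
  have h2'' : ∀ᵐ x : E2, ∀ t ∈ S, (mop (m t) f - mop (m' t) f : LL) x = mop (m t) f x - mop (m' t) f x := by
    refine (Filter.eventually_all_finset S).2 ?_
    intro t _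
    exact Lp.coeFn_sub _ _
  filter_upwards [h2, h2', h2'', ae_ne_zero] with x hx hx' hx'' hx0
  have h3 : ∀ t ∈ S, ‖(mop (m t) f - mop (m' t) f : LL) x‖ ^ 2 = (m t x - m' t x) ^ 2 * ‖f x‖ ^ 2 := by
    intro t ht
    rw [hx'' t ht, hx t ht, hx' t ht, ← sub_mul, norm_mul, ← Complex.ofReal_sub, Complex.norm_real,
      Real.norm_eq_abs, mul_pow, sq_abs]
  rw [Finset.sum_congr rfl h3, ← Finset.sum_mul]
  exact mul_le_mul_of_nonneg_right (h1 x hx0) (by positivity)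

theorem mop_sig {m : E2 → ℝ} (hm : Measurable m) (hb : ∃ b, ∀ x, |m x| ≤ b)
    (hh : ∀ c : ℂ, c ≠ 0 → ∀ x, m (c • x) = m x) (C : M2) (hC : C.det ≠ 0) (f : LL) :
    sig C (mop m f) = mop (fun x => m (C⁻¹ *ᵥ x)) (sig C f) := by
  have hm2 : Measurable fun x : E2 => m (C⁻¹ *ᵥ x) := by
    have hc : Continuous fun x : E2 => C⁻¹ *ᵥ x := by fun_prop
    exact hm.comp hc.measurable
  have hb2 : ∃ b, ∀ x : E2, |m (C⁻¹ *ᵥ x)| ≤ b := by
    obtain ⟨b, hb⟩ := hb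
    exact ⟨b, fun x => hb _⟩
  apply Lp.ext
  have h1 := sig_ae C hC (mop m f)
  have h2 : (fun x => mop m f (TC C x)) =ᵐ[volume] fun x => (m (TC C x) : ℂ) * f (TC C x) :=
    (TC_mp C hC).quasiMeasurePreserving.ae_eq_comp (mop_ae hm hb f)
  have h3 := mop_ae hm2 hb2 (sig C f)
  have h4 := sig_ae C hC f
  filter_upwards [h1, h2, h3, h4] with x e1 e2 e3 e4
  rw [e1, e2, e3, e4]
  congr 2
  unfold TC
  apply hh
  rw [Complex.ofReal_ne_zero, Real.sqrt_ne_zero']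
  exact norm_pos_iff.2 hC

theorem mop_rot {m : E2 → ℝ} (hm : Measurable m) (hb : ∃ b, ∀ x, |m x| ≤ b)
    (hh : ∀ c : ℂ, c ≠ 0 → ∀ x, m (c • x) = m x) (z : ℂ) (hz : ‖z‖ = 1) (f : LL) :
    rot z hz (mop m f) = mop m (rot z hz f) := by
  apply Lp.ext
  have h1 := rot_ae z hz (mop m f)
  have h2 : (fun x => mop m f (z • x)) =ᵐ[volume] fun x => (m (z • x) : ℂ) * f (z • x) :=
    (smul_mp z hz).quasiMeasurePreserving.ae_eq_comp (mop_ae hm hb f)
  have h3 := mop_ae hm hb (rot z hz f)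
  have h4 := rot_ae z hz f
  filter_upwards [h1, h2, h3, h4] with x e1 e2 e3 e4
  rw [e1, e2, e3, e4]
  congr 2
  apply hh
  intro h0
  rw [h0, norm_zero] at hz
  exact zero_ne_one hz

end Pool.Agent.Helper90.Fib
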