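import Pool.Agent.Helper84.NI.Geo

/-!
# Project NI (MP_0f6f3f_an, helper84), fibre representation FB, block Mp

PROOF. `TC C` is (the restriction of scalars of) the complex linear map with determinant `|det C| / det C` (dimension 2: the scalar `|det C|^{1/2}` contributes `|det C|`), of absolute value
one, so its real determinant is one (`LinearMap.det_restrictScalars`, `Algebra.norm_complex_apply`), and `volume` on `Fin 2 → ℂ` is an additive Haar measure
(`MeasureTheory.Measure.map_linearMap_addHaar_eq_smul_addHaar`). The algebraic lemmas: `(C D)⁻¹ = D⁻¹ C⁻¹` (`Matrix.mul_inv_rev`), `sqrt (a b) = sqrt a sqrt b`.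
-/

set_option autoImplicit false

open Matrix MeasureTheory

namespace Pool.Agent.Helper90.Fib

open Pool.Agent.Helper84.NI

/-- `ℂ²` -/
abbrev E2 : Type := Fin 2 → ℂ

/-- the map `x ↦ |det C|^{1/2} C⁻¹ x` -/
noncomputable def TC (C : M2) (x : E2) : E2 := ((Real.sqrt ‖C.det‖ : ℝ) : ℂ) • (C⁻¹ *ᵥ x)

theorem TC_cont (C : M2) : Continuous (TC C) := by
  unfold TC
  fun_prop

/-- joint continuity on invertible matrices -/
theorem TC_cont2 : Continuous fun p : {C : M2 // C.det ≠ 0} × E2 => TC p.1.1 p.2 := by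
  have e : (fun p : {C : M2 // C.det ≠ 0} × E2 => TC p.1.1 p.2) =
      fun p : {C : M2 // C.det ≠ 0} × E2 =>
        (((Real.sqrt ‖p.1.1.det‖ : ℝ) : ℂ) * (p.1.1.det)⁻¹) • ((p.1.1.adjugate) *ᵥ p.2) := by
    funext p
    unfold TC
    rw [Matrix.inv_def, Ring.inverse_eq_inv', Matrix.smul_mulVec, smul_smul]
  rw [e]
  have h0 : Continuous fun p : {C : M2 // C.det ≠ 0} × E2 => p.1.1 := by fun_prop
  have h1 : Continuous fun p : {C : M2 // C.det ≠ 0} × E2 => p.1.1.det := h0.matrix_det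
  have h2 : Continuous fun p : {C : M2 // C.det ≠ 0} × E2 => p.1.1.adjugate := h0.matrix_adjugate
  have h3 : Continuous fun p : {C : M2 // C.det ≠ 0} × E2 => (p.1.1.det)⁻¹ := h1.inv₀ fun p => p.1.2
  have h4 : Continuous fun p : {C : M2 // C.det ≠ 0} × E2 => ((Real.sqrt ‖p.1.1.det‖ : ℝ) : ℂ) := by
    fun_prop
  have h5 : Continuous fun p : {C : M2 // C.det ≠ 0} × E2 => p.1.1.adjugate *ᵥ p.2 :=
    h2.matrix_mulVec continuous_snd
  exact (h4.mul h3).smul h5

theorem TC_one (x : E2) : TC 1 x = x := by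
  simp [TC]

theorem TC_mul (C D : M2) (_hC : C.det ≠ 0) (_hD : D.det ≠ 0) (x : E2) :
    TC (C * D) x = TC D (TC C x) := by
  unfold TC
  rw [Matrix.mul_inv_rev, Matrix.mulVec_smul, Matrix.mulVec_mulVec, smul_smul, Matrix.det_mul,
    norm_mul, Real.sqrt_mul (norm_nonneg _)]
  push_cast
  rw [mul_comm]

theorem TC_smul (c : ℂ) (hc : c ≠ 0) (C : M2) (hC : C.det ≠ 0) (x : E2) :
    TC (c • C) x = ((‖c‖ : ℂ) / c) • TC C x := by
  unfold TC
  have h1 : (c • C)⁻¹ = c⁻¹ • C⁻¹ := by
    have := Matrix.inv_smul' C (Units.mk0 c hc) (isUnit_iff_ne_zero.2 hC)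
    simpa [Units.smul_def] using this
  rw [h1, Matrix.det_smul, Fintype.card_fin, norm_mul, norm_pow, Real.sqrt_mul (by positivity),
    Real.sqrt_sq (norm_nonneg _), Matrix.smul_mulVec, smul_smul, smul_smul]
  push_cast
  congr 1
  ring

theorem TC_comm (c : ℂ) (C : M2) (x : E2) : TC C (c • x) = c • TC C x := by
  unfold TC
  rw [Matrix.mulVec_smul, smul_comm]

/-- `TC` of a unitary matrix preserves the euclidean norm -/
theorem TC_unitary (k : M2) (hk : IsU k) (x : E2) :
    ‖TC k x 0‖ ^ 2 + ‖TC k x 1‖ ^ 2 = ‖x 0‖ ^ 2 + ‖x 1‖ ^ 2 := by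
  have hk' : k * kᴴ = 1 := mul_eq_one_comm.1 hk
  have hd : ‖k.det‖ = 1 := by
    have h1 := congrArg Matrix.det hk
    rw [Matrix.det_mul, Matrix.det_conjTranspose, Matrix.det_one] at h1
    have h2 := congrArg norm h1
    rw [norm_mul, norm_star, norm_one] at h2
    nlinarith [norm_nonneg k.det]
  have hinv : k⁻¹ = kᴴ := Matrix.inv_eq_left_inv hk
  have e : TC k x = kᴴ *ᵥ x := by
    unfold TC
    rw [hd, hinv]
    simp
  rw [e]
  have h3 : star (kᴴ *ᵥ x) ⬝ᵥ (kᴴ *ᵥ x) = star x ⬝ᵥ x := by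
    rw [Matrix.star_mulVec, Matrix.conjTranspose_conjTranspose, ← Matrix.dotProduct_mulVec,
      Matrix.mulVec_mulVec, hk', Matrix.one_mulVec]
  have h4 : ∀ y : E2, star y ⬝ᵥ y = ((‖y 0‖ ^ 2 + ‖y 1‖ ^ 2 : ℝ) : ℂ) := by
    intro y
    rw [dotProduct, Fin.sum_univ_two]
    push_cast
    simp only [Pi.star_apply, RCLike.star_def, Complex.conj_mul']
  rw [h4, h4] at h3
  exact_mod_cast h3

/-- `TC C` preserves Lebesgue measure -/
theorem TC_mp (C : M2) (hC : C.det ≠ 0) :
    MeasurePreserving (TC C) (volume : Measure E2) (volume : Measure E2) := by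
  let f : E2 →ₗ[ℂ] E2 := ((Real.sqrt ‖C.det‖ : ℝ) : ℂ) • Matrix.toLin' C⁻¹
  have hf : ∀ x, f x = TC C x := by
    intro x
    simp [f, TC, Matrix.toLin'_apply]
  have hd : ‖LinearMap.det f‖ = 1 := by
    simp only [f]
    rw [LinearMap.det_smul, LinearMap.det_toLin', Module.finrank_fin_fun, norm_mul, norm_pow,
      Complex.norm_real, Real.norm_of_nonneg (Real.sqrt_nonneg _), Real.sq_sqrt (norm_nonneg _),
      Matrix.det_nonsing_inv, Ring.inverse_eq_inv', norm_inv]
    exact mul_inv_cancel₀ (norm_ne_zero_iff.2 hC)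
  have hr : LinearMap.det (f.restrictScalars ℝ) = 1 := by
    rw [LinearMap.det_restrictScalars, Algebra.norm_complex_apply, Complex.normSq_eq_norm_sq, hd]
    norm_num
  have h1 := Measure.map_linearMap_addHaar_eq_smul_addHaar (volume : Measure E2)
    (f := f.restrictScalars ℝ) (by rw [hr]; exact one_ne_zero)
  rw [hr] at h1
  refine ⟨(TC_cont C).measurable, ?_⟩
  have h2 : (⇑(f.restrictScalars ℝ) : E2 → E2) = TC C := by
    funext x
    exact hf x
  rw [h2] at h1
  simpa using h1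

/-- multiplication by a unimodular number preserves Lebesgue measure -/
theorem smul_mp (c : ℂ) (hc : ‖c‖ = 1) :
    MeasurePreserving (fun x : E2 => c • x) (volume : Measure E2) (volume : Measure E2) := by
  have hc0 : c ≠ 0 := by
    rw [← norm_ne_zero_iff, hc]
    exact one_ne_zero
  have h := TC_mp (c⁻¹ • (1 : M2)) (by
    rw [Matrix.det_smul, Matrix.det_one, mul_one]
    exact pow_ne_zero _ (inv_ne_zero hc0))
  convert h using 1
  funext x
  rw [TC_smul _ (inv_ne_zero hc0) _ (by simp), TC_one, norm_inv, hc]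
  simp

end Pool.Agent.Helper90.Fib
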