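import Pool.Agent.Helper90.Fib.Mp

/-!
# Project NI (MP_0f6f3f_an, helper84), fibre representation FB, block Rep

PROOF. `sig C` is `MeasureTheory.Lp.compMeasurePreserving (TC C)` (linear: `Lp.compMeasurePreservingₗᵢ`), its inverse is the same for `C⁻¹`, by `TC_mul`, `TC_one` (two compositions with
equal maps are equal: `Lp.ext` and `Lp.coeFn_compMeasurePreserving`, `MeasurePreserving.quasiMeasurePreserving`); for `det C = 0` it is the identity.
`sig_cont`: `ContinuousOn.compMeasurePreservingLp` / `Continuous.compMeasurePreservingLp` on the subtype `{C // C.det ≠ 0}` (`continuousOn_iff_continuous_restrict`), the map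
`C ↦ (TC C : C(E2, E2))` is continuous by `ContinuousMap.curry` and `TC_cont2`.
-/

set_option autoImplicit false

open Matrix MeasureTheory
open scoped ENNReal

namespace Pool.Agent.Helper90.Fib

open Pool.Agent.Helper84.NI

/-- `L²(ℂ²)` -/
abbrev LL : Type := Lp ℂ 2 (volume : Measure E2)

theorem det_inv_ne {C : M2} (hC : C.det ≠ 0) : (C⁻¹).det ≠ 0 := by
  rw [Matrix.det_nonsing_inv]
  simpa using hC

/-- The composition operator with `TC C`. -/
noncomputable def cmp (C : M2) (hC : C.det ≠ 0) : LL →ₗᵢ[ℂ] LL :=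
  Lp.compMeasurePreservingₗᵢ ℂ (TC C) (TC_mp C hC)

theorem cmp_ae (C : M2) (hC : C.det ≠ 0) (f : LL) :
    (cmp C hC f : E2 → ℂ) =ᵐ[volume] fun x => f (TC C x) :=
  Lp.coeFn_compMeasurePreserving f (TC_mp C hC)

theorem ae_comp {f g : E2 → ℂ} (h : f =ᵐ[volume] g) {T : E2 → E2}
    (hT : MeasurePreserving T (volume : Measure E2) (volume : Measure E2)) :
    (fun x => f (T x)) =ᵐ[volume] fun x => g (T x) :=
  hT.quasiMeasurePreserving.ae_eq_comp h

theorem cmp_cmp (C D : M2) (hC : C.det ≠ 0) (hD : D.det ≠ 0) (f : LL) :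
    (cmp C hC (cmp D hD f) : E2 → ℂ) =ᵐ[volume] fun x => f (TC (C * D) x) := by
  refine (cmp_ae C hC _).trans ((ae_comp (cmp_ae D hD f) (TC_mp C hC)).trans ?_)
  refine Filter.Eventually.of_forall fun x => ?_
  simp only
  rw [TC_mul C D hC hD]

/-- The unitary representation of invertible matrices on `L²(ℂ²)`. -/
theorem exists_sig : ∃ sig : M2 → (LL ≃ₗᵢ[ℂ] LL),
    ∀ C : M2, C.det ≠ 0 → ∀ f : LL, (sig C f : E2 → ℂ) =ᵐ[volume] fun x => f (TC C x) := by
  classical
  have key : ∀ (C D : M2) (hC : C.det ≠ 0) (hD : D.det ≠ 0) (_ : C * D = 1) (f : LL),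
      cmp C hC (cmp D hD f) = f := by
    intro C D hC hD h f
    refine Lp.ext ((cmp_cmp C D hC hD f).trans ?_)
    refine Filter.Eventually.of_forall fun x => ?_
    simp only
    rw [h, TC_one]
  refine ⟨fun C => if hC : C.det ≠ 0 then
    { (cmp C hC).toLinearMap with
      invFun := cmp C⁻¹ (det_inv_ne hC)
      left_inv := fun f => key _ _ _ _ (Matrix.nonsing_inv_mul _ (isUnit_iff_ne_zero.2 hC)) f
      right_inv := fun f => key _ _ _ _ (Matrix.mul_nonsing_inv _ (isUnit_iff_ne_zero.2 hC)) f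
      norm_map' := (cmp C hC).norm_map } else 1, fun C hC f => ?_⟩
  simp only
  rw [dif_pos hC]
  exact cmp_ae C hC f

/-- The unitary representation of invertible matrices on `L²(ℂ²)`. -/
noncomputable def sig : M2 → (LL ≃ₗᵢ[ℂ] LL) := exists_sig.choose

theorem sig_ae (C : M2) (hC : C.det ≠ 0) (f : LL) :
    (sig C f : E2 → ℂ) =ᵐ[volume] fun x => f (TC C x) := exists_sig.choose_spec C hC f

theorem sig_one (f : LL) : sig 1 f = f := by
  refine Lp.ext ((sig_ae 1 (by simp) f).trans ?_)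
  refine Filter.Eventually.of_forall fun x => ?_
  simp only
  rw [TC_one]

theorem sig_mul (C D : M2) (hC : C.det ≠ 0) (hD : D.det ≠ 0) (f : LL) :
    sig (C * D) f = sig C (sig D f) := by
  refine Lp.ext ((sig_ae (C * D) (by rw [Matrix.det_mul]; exact mul_ne_zero hC hD) f).trans ?_)
  refine ((sig_ae C hC _).trans ((ae_comp (sig_ae D hD f) (TC_mp C hC)).trans ?_)).symm
  refine Filter.Eventually.of_forall fun x => ?_
  simp only
  rw [TC_mul C D hC hD]

/-- the operator `f ↦ f (c x)` for unimodular `c` -/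
noncomputable def rot (c : ℂ) (hc : ‖c‖ = 1) : LL →ₗᵢ[ℂ] LL :=
  Lp.compMeasurePreservingₗᵢ ℂ (fun x : E2 => c • x) (smul_mp c hc)

theorem rot_ae (c : ℂ) (hc : ‖c‖ = 1) (f : LL) :
    (rot c hc f : E2 → ℂ) =ᵐ[volume] fun x => f (c • x) :=
  Lp.coeFn_compMeasurePreserving f (smul_mp c hc)

theorem rot_sig (c : ℂ) (hc : ‖c‖ = 1) (C : M2) (hC : C.det ≠ 0) (f : LL) :
    rot c hc (sig C f) = sig C (rot c hc f) := by
  refine Lp.ext ((rot_ae c hc _).trans ((ae_comp (sig_ae C hC f) (smul_mp c hc)).trans ?_))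
  refine ((sig_ae C hC _).trans ((ae_comp (rot_ae c hc f) (TC_mp C hC)).trans ?_)).symm
  refine Filter.Eventually.of_forall fun x => ?_
  simp only
  rw [TC_comm]

/-- scalar matrices act through rotations -/
theorem sig_smul (c : ℂ) (hc : c ≠ 0) (C : M2) (hC : C.det ≠ 0) (f : LL)
    (hf : ∀ (z : ℂ) (hz : ‖z‖ = 1), rot z hz f = f) : sig (c • C) f = sig C f := by
  have hcC : (c • C).det ≠ 0 := by
    rw [Matrix.det_smul]
    exact mul_ne_zero (pow_ne_zero _ hc) hC
  have hz : ‖(‖c‖ : ℂ) / c‖ = 1 := by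
    rw [norm_div, Complex.norm_real, norm_norm, div_self (norm_ne_zero_iff.2 hc)]
  refine Lp.ext ((sig_ae (c • C) hcC f).trans ?_)
  have h1 := rot_ae _ hz f
  rw [hf _ hz] at h1
  refine Filter.EventuallyEq.trans ?_ (sig_ae C hC f).symm
  refine Filter.EventuallyEq.trans ?_ (ae_comp h1 (TC_mp C hC)).symm
  refine Filter.Eventually.of_forall fun x => ?_
  simp only
  rw [TC_smul c hc C hC]

theorem sig_cont (f : LL) : ContinuousOn (fun C : M2 => sig C f) {C : M2 | C.det ≠ 0} := by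
  rw [continuousOn_iff_continuous_domRestrict]
  have hcur : Continuous fun C : {C : M2 // C.det ≠ 0} => (⟨TC C.1, TC_cont C.1⟩ : C(E2, E2)) := by
    let F : C({C : M2 // C.det ≠ 0} × E2, E2) := ⟨fun p => TC p.1.1 p.2, TC_cont2⟩
    exact F.curry.continuous
  have h := Continuous.compMeasurePreservingLp (p := 2) (μ := (volume : Measure E2))
    (ν := (volume : Measure E2)) (E := ℂ)
    (continuous_const (y := f) (X := {C : M2 // C.det ≠ 0})) hcur
    (fun C => TC_mp C.1 C.2) (by norm_num)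
  refine h.congr fun C => ?_
  refine Lp.ext ((Lp.coeFn_compMeasurePreserving f (TC_mp C.1 C.2)).trans ?_)
  exact (sig_ae C.1 C.2 f).symm

end Pool.Agent.Helper90.Fib
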